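import Pool.Agent.H64.NL3
import Pool.Agent.H64.NLDefs

set_option autoImplicit false

namespace Pool.Agent.Results.MP_4236ce_al.Counter

open Pool.Agent.H64.NLDefs Pool.Agent.H64.NL

lemma mgen_eq_zero (H : Type) [Group H] [Subsingleton H] : mgen H = 0 := by
  apply le_antisymm _ zero_le'
  refine iInf_le_of_le ∅ (iInf_le_of_le (Subsingleton.elim _ _) (by simp))

lemma one_le_mgen (H : Type) [Group H] [Nontrivial H] : 1 ≤ mgen H := by
  refine le_iInf fun S => le_iInf fun hS => ?_
  rcases S.eq_empty_or_nonempty with rfl | h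
  · simp at hS
  · exact_mod_cast h.card_pos

def q0 : ℕ → ℕ := fun n => n % 2

lemma good : Good q0 := by
  intro n
  unfold q0
  rcases Nat.mod_two_eq_zero_or_one n with h | h
  · rw [h, show (n + 1) % 2 = 1 by omega]; norm_num
  · rw [h, show (n + 1) % 2 = 0 by omega]; norm_num

lemma part1 (p : ℕ) (hp : p.Prime) : NL (GG q0) (fun N => dp p N) = 0 := by
  apply le_antisymm _ zero_le'
  refine iSup_le fun M => iSup_le fun hM => ?_
  obtain ⟨j, hj⟩ := csp' good M hM.1 hM.2
  obtain ⟨k, hk, hc⟩ : ∃ k, j ≤ k ∧ Nat.Coprime p (q0 k + 7) := by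
    by_cases h : p ∣ q0 j + 7
    · refine ⟨j + 1, by omega, (Nat.Prime.coprime_iff_not_dvd hp).2 fun h' => ?_⟩
      exact hp.one_lt.ne' (Nat.eq_one_of_dvd_coprimes (good j) h h')
    · exact ⟨j, le_rfl, (Nat.Prime.coprime_iff_not_dvd hp).2 h⟩
  refine iInf_le_of_le (derivedSeries (GG q0) k)
    (iInf_le_of_le ⟨inferInstance, ds_fi good k, hj k hk⟩ ?_)
  set A := derivedSeries (GG q0) k with hA
  have htop : frat p A = ⊤ := by
    rw [eq_top_iff]
    intro x _
    apply mem_of_coprime hc
    · exact Subgroup.mem_sup_right (Subgroup.subset_closure ⟨x, rfl⟩)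
    · apply Subgroup.mem_sup_left
      rw [← mem_comm]
      exact pow_mem_ds k good _ x.2
  haveI := frat_normal p A
  haveI : Subsingleton (A ⧸ frat p A) := by
    rw [← Subgroup.index_eq_one, Subgroup.index, Nat.card_eq_one_iff_unique] at htop
    exact htop.1
  exact le_of_eq (mgen_eq_zero _)

lemma part2 : 1 ≤ NL (GG q0) (fun N => delta N) := by
  refine le_iSup_of_le ⊤ (le_iSup_of_le ⟨inferInstance, inferInstance⟩ ?_)
  refine le_iInf fun N => le_iInf fun hN => ?_
  haveI : Nontrivial (N ⧸ commutator N) := by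
    by_contra hn
    rw [not_nontrivial_iff_subsingleton] at hn
    have h1 : N ≤ ⁅N, N⁆ := by
      intro x hx
      apply (mem_comm (⟨x, hx⟩ : N)).2
      exact (QuotientGroup.eq_one_iff _).1 (Subsingleton.elim _ _)
    have h2 : ∀ k, N ≤ derivedSeries (GG q0) k := by
      intro k
      induction k with
      | zero => exact le_top
      | succ k ih => exact h1.trans (Subgroup.commutator_mono ih ih)
    obtain ⟨j, hj⟩ := csp' good N hN.1 hN.2.1
    obtain ⟨g, hg, hne⟩ := ds_ne j good
    exact hne (eq_one_of_ds good g fun k => h2 k (hj (j + 1) (by omega) hg))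
  exact one_le_mgen _

/-- A finitely generated group with `NL_{d_p} = 0` for every prime `p` and `NL_δ ≥ 1`. -/
theorem result : ∃ (Γ : Type) (_ : Group Γ), Group.FG Γ ∧
    (∀ p : ℕ, p.Prime → NL Γ (fun N => dp p N) = 0) ∧ 1 ≤ NL Γ (fun N => delta N) ∧
    NL Γ (fun N => delta N) ≠ ⨆ (p : ℕ) (_ : p.Prime), NL Γ (fun N => dp p N) := by
  refine ⟨GG q0, inferInstance, inferInstance, part1, part2, ?_⟩
  intro h
  have h0 : (⨆ (p : ℕ) (_ : p.Prime), NL (GG q0) (fun N => dp p N)) = 0 :=
    le_antisymm (iSup_le fun p => iSup_le fun hp => le_of_eq (part1 p hp)) zero_le'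
  have := part2
  rw [h, h0] at this
  exact absurd this (by simp)

end Pool.Agent.Results.MP_4236ce_al.Counter
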